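import Pool.Agent.helper32.EX.SpecD

/-!
# Row ex:UIN (MP_561ff4_al): `X_i`, `X_{-i}` normalise `U_i`
-/

set_option autoImplicit false
set_option linter.unusedVariables false
set_option linter.unusedSectionVars false

namespace Pool.Agent.EX

noncomputable section

theorem UIN_rf (hSIM : SIM_stmt) {n : ℕ} (C : Matrix (Fin n) (Fin n) ℤ) [hC : Fact (Dyn C)] (i : Fin n) (γ : Rt C)
    (hγ : γ = sm C i ∨ γ = -(sm C i)) (α : Rt C) (hα : Pos α) (hne : α ≠ sm C i) (hQ : Q C γ.1 α.1 = -1) :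
    ∃ δ : Rt C, δ.1 = γ.1 + α.1 ∧ Pos δ ∧ δ ≠ sm C i := by
  refine ⟨rf (sm C i) α, ?_, hSIM C α i hα hne, ?_⟩
  · rcases hγ with h | h
    · have h1 : Q C (sm C i).1 α.1 = -1 := by rw [← h]; exact hQ
      change α.1 - Q C (sm C i).1 α.1 • (sm C i).1 = γ.1 + α.1
      rw [h1, h]
      funext k
      simp only [Pi.sub_apply, Pi.smul_apply, Pi.add_apply, smul_eq_mul]
      ring
    · have h1 : Q C (sm C i).1 α.1 = 1 := by
        rw [h, neg_val, Q_neg_left] at hQ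
        omega
      change α.1 - Q C (sm C i).1 α.1 • (sm C i).1 = γ.1 + α.1
      rw [h1, h, neg_val]
      funext k
      simp only [Pi.sub_apply, Pi.smul_apply, Pi.add_apply, Pi.neg_apply, smul_eq_mul]
      ring
  · intro h
    have h2 : Q C (sm C i).1 (rf (sm C i) α).1 = -Q C (sm C i).1 α.1 := by
      change Q C (sm C i).1 (α.1 - Q C (sm C i).1 α.1 • (sm C i).1) = _
      rw [Q_sub_right, Q_smul_right, (sm C i).2]
      ring
    rw [h, (sm C i).2] at h2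
    rcases hγ with h3 | h3
    · rw [h3] at hQ
      omega
    · rw [h3, neg_val, Q_neg_left] at hQ
      omega

theorem UIN_gen (hRCM : RCM_stmt) (hSIM : SIM_stmt) {n : ℕ} (C : Matrix (Fin n) (Fin n) ℤ) [hC : Fact (Dyn C)] (F : Type)
    [Field F] (i : Fin n) (γ : Rt C) (hγ : γ = sm C i ∨ γ = -(sm C i)) (t : F) (α : Rt C) (s : F) (hα : Pos α)
    (hne : α ≠ sm C i) : xl γ t * xl α s * (xl γ t)⁻¹ ∈ UI C F i := by
  have hα' : xl α s ∈ UI C F i := Subgroup.subset_closure ⟨α, s, hα, hne, rfl⟩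
  by_cases h0 : 0 ≤ Q C γ.1 α.1
  · rw [(hRCM C F γ α t s).2 h0, mul_assoc, mul_inv_cancel, mul_one]
    exact hα'
  · have h1 := (bd γ α).1
    by_cases h2 : Q C γ.1 α.1 = -1
    · obtain ⟨δ, hδ, hδp, hδn⟩ := UIN_rf hSIM C i γ hγ α hα hne h2
      rw [(hRCM C F γ α t s).1 δ hδ]
      exact Subgroup.mul_mem _ hα' (Subgroup.subset_closure ⟨δ, _, hδp, hδn, rfl⟩)
    · exfalso
      have h3 : Q C γ.1 α.1 = -2 := by omega
      have h4 := Q_eq_neg_two h3
      rcases hγ with h | h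
      · have h5 := hα i
        rw [h4, h, neg_val] at h5
        simp [sm] at h5
      · apply hne
        rw [h4, h, rt_neg_neg]

theorem UIN_all (hRCM : RCM_stmt) (hSIM : SIM_stmt) {n : ℕ} (C : Matrix (Fin n) (Fin n) ℤ) [hC : Fact (Dyn C)] (F : Type)
    [Field F] (i : Fin n) (γ : Rt C) (hγ : γ = sm C i ∨ γ = -(sm C i)) (t : F) :
    ∀ u ∈ UI C F i, xl γ t * u * (xl γ t)⁻¹ ∈ UI C F i := by
  intro u hu
  have hu' : u ∈ Subgroup.closure {g : LV C F ≃ₗ[F] LV C F | ∃ (α : Rt C) (t : F), Pos α ∧ α ≠ sm C i ∧ g = xl α t} := hu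
  induction hu' using Subgroup.closure_induction with
  | mem x hx =>
    obtain ⟨α, s, h1, h2, rfl⟩ := hx
    exact UIN_gen hRCM hSIM C F i γ hγ t α s h1 h2
  | one =>
    rw [mul_one, mul_inv_cancel]
    exact Subgroup.one_mem _
  | mul x y hx hy ihx ihy =>
    have e : xl γ t * (x * y) * (xl γ t)⁻¹ = (xl γ t * x * (xl γ t)⁻¹) * (xl γ t * y * (xl γ t)⁻¹) := by group
    rw [e]
    exact Subgroup.mul_mem _ (ihx hx) (ihy hy)
  | inv x hx ihx =>
    have e : xl γ t * x⁻¹ * (xl γ t)⁻¹ = (xl γ t * x * (xl γ t)⁻¹)⁻¹ := by group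
    rw [e]
    exact Subgroup.inv_mem _ (ihx hx)

theorem UIN (hRCM : RCM_stmt) (hSIM : SIM_stmt) : UIN_stmt := by
  intro n C hC F _ i t u hu
  exact ⟨UIN_all hRCM hSIM C F i (sm C i) (Or.inl rfl) t u hu, UIN_all hRCM hSIM C F i (-(sm C i)) (Or.inr rfl) t u hu⟩

end

end Pool.Agent.EX
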